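import Mathlib

/-!
# Generic statements give integral certificates
-/

set_option autoImplicit false

namespace Pool.Agent.Helper87.AP

open MvPolynomial

attribute [local instance] MvPolynomial.algebraMvPolynomial

/-- Over the algebraic closure of the field of the generic coefficients every common zero of the
`P i` is a zero of `Q`. Then the same holds over every field, for all coefficients outside the
zeros of one polynomial with coefficients in `ℤ`. -/
theorem certificate {σ τ ι : Type*} [Finite τ] [Fintype ι]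
    (P : ι → MvPolynomial τ (MvPolynomial σ ℤ)) (Q : MvPolynomial τ (MvPolynomial σ ℤ))
    (h : ∀ x : τ → AlgebraicClosure (FractionRing (MvPolynomial σ ℤ)),
      (∀ i, aeval x (P i) = 0) → aeval x Q = 0) :
    ∃ R : MvPolynomial σ ℤ, R ≠ 0 ∧ ∀ {F : Type*} [Field F] (c : σ → F), aeval c R ≠ 0 →
      ∀ x : τ → F, (∀ i, eval₂ ((aeval c : MvPolynomial σ ℤ →ₐ[ℤ] F) : MvPolynomial σ ℤ →+* F)
        x (P i) = 0) →
        eval₂ ((aeval c : MvPolynomial σ ℤ →ₐ[ℤ] F) : MvPolynomial σ ℤ →+* F) x Q = 0 := by
  classical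
  set A := MvPolynomial σ ℤ with hA
  set K := FractionRing A with hK
  set E := AlgebraicClosure K with hE
  set I : Ideal (MvPolynomial τ K) :=
    Ideal.span (Set.range fun i => map (algebraMap A K) (P i)) with hI
  have h1 : map (algebraMap A K) Q ∈ I.radical := by
    rw [← vanishingIdeal_zeroLocus_eq_radical (K := E)]
    intro x hx
    rw [aeval_map_algebraMap]
    refine h x fun i => ?_
    have h2 := hx (map (algebraMap A K) (P i)) (Ideal.subset_span ⟨i, rfl⟩)
    rwa [aeval_map_algebraMap] at h2
  obtain ⟨M, hM⟩ := h1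
  rw [hI, Ideal.mem_span_range_iff_exists_fun] at hM
  obtain ⟨a, ha⟩ := hM
  obtain ⟨b, hb⟩ := IsLocalization.exist_integer_multiples_of_finite
    ((nonZeroDivisors A).map (C : A →+* MvPolynomial τ A)) a
  obtain ⟨b, r, hr, rfl⟩ := b
  choose a' ha' using hb
  have hr0 : r ≠ 0 := nonZeroDivisors.ne_zero hr
  have hinj : Function.Injective (map (σ := τ) (algebraMap A K)) :=
    map_injective _ (IsFractionRing.injective A K)
  have key : ∑ i, a' i * P i = C r * Q ^ M := by
    apply hinj
    rw [map_sum, map_mul, map_pow, ← ha, Finset.mul_sum]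
    refine Finset.sum_congr rfl fun i _ => ?_
    rw [map_mul, ← mul_assoc]
    congr 1
    have h2 := ha' i
    rw [algebraMap_def] at h2
    rw [h2, Algebra.smul_def, algebraMap_def]
  refine ⟨r, hr0, fun {F} _ c hc x hx => ?_⟩
  set φ : A →+* F := ((aeval c : MvPolynomial σ ℤ →ₐ[ℤ] F) : MvPolynomial σ ℤ →+* F) with hφ
  have h3 := congrArg (eval₂Hom φ x) key
  rw [map_sum, map_mul, map_pow, coe_eval₂Hom, eval₂_C] at h3
  rw [Finset.sum_eq_zero (fun i _ => by
    rw [eval₂_mul, hx i, mul_zero])] at h3
  have h4 : φ r ≠ 0 := hc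
  rcases mul_eq_zero.1 h3.symm with h5 | h5
  · exact absurd h5 h4
  · exact eq_zero_of_pow_eq_zero h5

end Pool.Agent.Helper87.AP
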