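import Pool.Agent.Helper87.AP.Cert

/-!
# The certificate lemma for all fields with independent elements
-/

set_option autoImplicit false

namespace Pool.Agent.Helper87.AP

open MvPolynomial

/-- the substitution of elements of a field -/
noncomputable def cm {σ F : Type*} [CommRing F] (c : σ → F) : MvPolynomial σ ℤ →+* F :=
  ((aeval c : MvPolynomial σ ℤ →ₐ[ℤ] F) : MvPolynomial σ ℤ →+* F)

theorem cm_X {σ F : Type*} [CommRing F] (c : σ → F) (k : σ) : cm c (X k) = c k := aeval_X c k

theorem cm_apply {σ F : Type*} [CommRing F] (c : σ → F) (p : MvPolynomial σ ℤ) :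
    cm c p = aeval c p := rfl

theorem cm_hom {σ F : Type*} [CommRing F] (φ : MvPolynomial σ ℤ →+* F) :
    cm (fun k => φ (X k)) = φ := by
  refine MvPolynomial.ringHom_ext (fun r => ?_) fun k => ?_
  · rw [cm_apply, aeval_C, algebraMap_int_eq, eq_intCast, eq_intCast, map_intCast]
  · rw [cm_X]

theorem indep_of_injective {σ F : Type*} [CommRing F] (φ : MvPolynomial σ ℤ →+* F)
    (hφ : Function.Injective φ) : AlgebraicIndependent ℤ (fun k => φ (X k)) := by
  intro p q h
  apply hφ
  rw [← cm_hom φ]
  exact h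

theorem charZero_of_injective {σ F : Type*} [CommRing F] (φ : MvPolynomial σ ℤ →+* F)
    (hφ : Function.Injective φ) : CharZero F :=
  charZero_of_injective_ringHom hφ

/-- **Certificates.** -/
theorem certificate' {σ : Type} {τ ι : Type} [Finite τ] [Fintype ι]
    (P : ι → MvPolynomial τ (MvPolynomial σ ℤ)) (Q : MvPolynomial τ (MvPolynomial σ ℤ))
    (h : ∀ (E : Type) [Field E] [CharZero E] (c : σ → E), AlgebraicIndependent ℤ c →
      ∀ x : τ → E, (∀ i, eval₂ (cm c) x (P i) = 0) → eval₂ (cm c) x Q = 0) :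
    ∃ R : MvPolynomial σ ℤ, R ≠ 0 ∧ ∀ {F : Type*} [Field F] (c : σ → F), aeval c R ≠ 0 →
      ∀ x : τ → F, (∀ i, eval₂ (cm c) x (P i) = 0) → eval₂ (cm c) x Q = 0 := by
  refine certificate P Q ?_
  have hinj : Function.Injective (algebraMap (MvPolynomial σ ℤ)
      (AlgebraicClosure (FractionRing (MvPolynomial σ ℤ)))) := by
    rw [IsScalarTower.algebraMap_eq (MvPolynomial σ ℤ) (FractionRing (MvPolynomial σ ℤ))
      (AlgebraicClosure (FractionRing (MvPolynomial σ ℤ)))]
    rw [RingHom.coe_comp]
    exact (RingHom.injective _).comp (IsFractionRing.injective _ _)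
  haveI := charZero_of_injective _ hinj
  intro x hx
  have h1 := h _ _ (indep_of_injective _ hinj) x (by
    intro i
    rw [cm_hom]
    exact hx i)
  rw [cm_hom] at h1
  exact h1

end Pool.Agent.Helper87.AP
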