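import Pool.Agent.Helper87.AP.GenA

/-!
# There are no long generic chains
-/

set_option autoImplicit false

namespace Pool.Agent.Helper87.AP

open MvPolynomial
open Pool.Agent.Helper26.DV
open Pool.Agent.Helper86.DV (eval_vP eval_vF)
open Pool.Agent.Helper86.MQ (pm)

variable {m : ℕ} {w : Fin (m + 1) → ℕ}

/-- functionals which are dual to independent vectors -/
theorem exists_dual {E : Type*} [Field E] {n k : ℕ} (x : Fin k → Fin n → E)
    (hx : LinearIndependent E x) (j₀ : Fin k) :
    ∃ l : Fin n → E, ∀ j, ∑ a, l a * x j a = if j = j₀ then 1 else 0 := by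
  classical
  obtain ⟨g, hg⟩ := LinearMap.exists_extend
    ((Finsupp.lapply j₀ : (Fin k →₀ E) →ₗ[E] E) ∘ₗ hx.repr)
  refine ⟨fun a => g (Pi.single a 1), fun j => ?_⟩
  have h1 : g (x j) = if j = j₀ then 1 else 0 := by
    have h2 := LinearMap.congr_fun hg ⟨x j, Submodule.subset_span ⟨j, rfl⟩⟩
    rw [LinearMap.comp_apply, Submodule.subtype_apply, LinearMap.comp_apply,
      hx.repr_eq_single j _ rfl, Finsupp.lapply_apply, Finsupp.single_apply] at h2
    exact h2
  rw [← h1]
  conv_rhs => rw [pi_eq_sum_univ' (x j), map_sum]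
  refine Finset.sum_congr rfl fun a _ => ?_
  rw [map_smul, smul_eq_mul, mul_comm]

/-- The values of the monomials of degree `w ≥ 1` at independent points are independent. -/
theorem mono_indep {E : Type*} [Field E] {k : ℕ} (x : Fin k → Fin (m + 1) → E)
    (hx : LinearIndependent E x) (i : Fin (m + 1)) (hi : 1 ≤ w i) :
    LinearIndependent E (fun (j : Fin k) (t : {s : Fin (m + 1) →₀ ℕ // s.degree ≤ w i}) =>
      if (t : Fin (m + 1) →₀ ℕ).degree = w i then ∏ a, x j a ^ (t : Fin (m + 1) →₀ ℕ) a else 0) := by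
  classical
  rw [Fintype.linearIndependent_iff]
  intro μ hμ j₀
  obtain ⟨l, hl⟩ := exists_dual x hx j₀
  set L : MvPolynomial (Fin (m + 1)) E := (∑ a, C (l a) * X a) ^ w i with hL
  have hhom : L.IsHomogeneous (w i) := by
    have h1 : (∑ a, C (l a) * X a : MvPolynomial (Fin (m + 1)) E).IsHomogeneous 1 := by
      refine IsHomogeneous.sum _ _ _ fun a _ => ?_
      have := (isHomogeneous_C (Fin (m + 1)) (l a)).mul (isHomogeneous_X E a)
      rwa [zero_add] at this
    have h2 := h1.pow (w i)
    rwa [one_mul] at h2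
  have hval : ∀ j, eval (x j) L = if j = j₀ then 1 else 0 := by
    intro j
    rw [hL, map_pow, map_sum]
    simp only [map_mul, eval_C, eval_X]
    rw [hl j]
    split_ifs
    · rw [one_pow]
    · rw [zero_pow (by omega)]
  have hexp : ∀ j, eval (x j) L = ∑ t : {s : Fin (m + 1) →₀ ℕ // s.degree ≤ w i},
      coeff (t : Fin (m + 1) →₀ ℕ) L * (if (t : Fin (m + 1) →₀ ℕ).degree = w i then
        ∏ a, x j a ^ (t : Fin (m + 1) →₀ ℕ) a else 0) := by
    intro j
    rw [eval_eq']
    symm
    refine Finset.sum_bij_ne_zero (fun t _ _ => t.1) ?_ ?_ ?_ ?_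
    · intro t _ ht
      rw [mem_support_iff]
      exact left_ne_zero_of_mul ht
    · intro t _ _ t' _ _ h
      exact Subtype.ext h
    · intro s hs _
      have h1 : s.degree = w i := by
        by_contra h2
        exact (mem_support_iff.1 hs) (hhom.coeff_eq_zero h2)
      refine ⟨⟨s, h1.le⟩, Finset.mem_univ _, ?_, rfl⟩
      dsimp only
      rw [if_pos h1]
      assumption
    · intro t _ ht
      have h1 : (t : Fin (m + 1) →₀ ℕ).degree = w i := by
        by_contra h2
        rw [if_neg h2, mul_zero] at ht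
        exact ht rfl
      rw [if_pos h1]
  have h1 : ∑ j, μ j * eval (x j) L = 0 := by
    simp only [hexp, Finset.mul_sum]
    rw [Finset.sum_comm]
    refine Finset.sum_eq_zero fun t _ => ?_
    have h2 := congrFun hμ t
    rw [Finset.sum_apply, Pi.zero_apply] at h2
    simp only [Pi.smul_apply, smul_eq_mul] at h2
    calc _ = coeff (t : Fin (m + 1) →₀ ℕ) L * ∑ j, μ j *
          (if (t : Fin (m + 1) →₀ ℕ).degree = w i then
            ∏ a, x j a ^ (t : Fin (m + 1) →₀ ℕ) a else 0) := by
          rw [Finset.mul_sum]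
          refine Finset.sum_congr rfl fun j _ => ?_
          ring
      _ = 0 := by rw [h2, mul_zero]
  simp only [hval, mul_ite, mul_one, mul_zero, Finset.sum_ite_eq', Finset.mem_univ, if_true] at h1
  exact h1

theorem eval_vF_smul {R : Type*} [CommRing R] (c : VIdx m w → R) (i : Fin (m + 1)) (μ : R)
    (x : Fin (m + 1) → R) :
    eval (fun a => μ * x a) (vF c i) = μ ^ w i * eval x (vF c i) := by
  rw [eval_vF, eval_vF, Finset.mul_sum]
  refine Finset.sum_congr rfl fun t _ => ?_
  split_ifs with h
  · simp only [mul_pow]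
    rw [Finset.prod_mul_distrib, Finset.prod_pow_eq_pow_sum, ← Finsupp.degree_eq_sum, h]
    ring
  · rw [mul_zero]

theorem rel_smul {R : Type*} [CommRing R] {c : VIdx m w → R} {e : ℕ} {x x' : Fin (m + 1) → R}
    (h : Rel c e x x') (μ : R) : Rel c e (fun a => μ * x a) (fun a => μ ^ e * x' a) := by
  obtain ⟨⟨h1, h2⟩, ⟨h3, h4⟩, h5, h6, h7⟩ := h
  refine ⟨⟨?_, fun i hi => ?_⟩, ⟨?_, fun i hi => ?_⟩, fun i hi => ?_, ?_, fun i hi => ?_⟩
  · simp only [h1, mul_zero]
  · simp only [h2 i hi, mul_zero]
  · simp only [h3, mul_zero]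
  · simp only [h4 i hi, mul_zero]
  · rw [eval_vF_smul, h5 i hi, mul_zero]
  · rw [eval_vF_smul, h6, mul_zero]
  · rw [eval_vF_smul, ← h7 i hi, hi]

/-- **There are no long generic chains.** -/
theorem genB {E : Type*} [Field E] [CharZero E] (hw : ∀ i, 1 ≤ w i) (c : VIdx m w → E)
    (hc : AlgebraicIndependent ℤ c) (e : ℕ) (x : ℕ → Fin (m + 1) → E)
    (hx : ∀ n, n ≤ m → Rel c e (x n) (x (n + 1))) : x 0 = 0 := by
  classical
  by_contra hne
  -- normalisation
  obtain ⟨i₀, hi₀⟩ : ∃ i₀ : Fin m, x 0 i₀.castSucc ≠ 0 := by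
    by_contra hcon
    push Not at hcon
    apply hne
    funext i
    refine Fin.lastCases ?_ (fun i => hcon i) i
    exact (hx 0 (Nat.zero_le _)).1.1
  have hi₀e : e ≤ w i₀.castSucc := by
    by_contra h
    exact hi₀ ((hx 0 (Nat.zero_le _)).1.2 i₀ (not_le.1 h))
  set μ : E := (x 0 i₀.castSucc)⁻¹ with hμ
  set y : ℕ → Fin (m + 1) → E := fun n a => μ ^ e ^ n * x n a with hy
  have hyx : ∀ n, n ≤ m → Rel c e (y n) (y (n + 1)) := by
    intro n hn
    have h1 := rel_smul (hx n hn) (μ ^ e ^ n)
    rw [← pow_mul, ← pow_succ] at h1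
    exact h1
  have hy0 : y 0 i₀.castSucc = 1 := by
    simp only [hy, pow_zero, pow_one, hμ]
    exact inv_mul_cancel₀ hi₀
  clear_value y
  clear hx hne
  have hin : ∀ n, n ≤ m + 1 → InV w e (y n) := by
    intro n hn
    rcases Nat.lt_or_eq_of_le hn with h | h
    · exact (hyx n (by omega)).1
    · subst h
      exact (hyx m le_rfl).2.1
  set J := {i : Fin m // e ≤ w i.castSucc} with hJ
  set u := Fintype.card J with hu
  have hum : u ≤ m := by
    have h1 := Fintype.card_subtype_le fun i : Fin m => e ≤ w i.castSucc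
    rw [Fintype.card_fin] at h1
    exact h1
  set r : ℕ → J → E := fun n i => y n i.1.castSucc with hr
  obtain ⟨k, hk, hli, hspan⟩ := first_dep (E := E) r
  rw [Module.finrank_pi] at hk
  have hku : k ≤ u := hk
  have hk1 : 1 ≤ k := by
    by_contra h0
    have h1 : k = 0 := by omega
    subst h1
    rw [Set.range_eq_empty, Submodule.span_empty, Submodule.mem_bot] at hspan
    have h2 : y 0 i₀.castSucc = 0 := congrFun hspan ⟨i₀, hi₀e⟩
    rw [hy0] at h2
    exact one_ne_zero h2
  rw [Submodule.mem_span_range_iff_exists_fun] at hspan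
  obtain ⟨t, ht⟩ := hspan
  -- the vectors themselves
  have hYli : LinearIndependent E fun j : Fin k => y j := by
    let π : (Fin (m + 1) → E) →ₗ[E] (J → E) :=
      { toFun := fun v i => v i.1.castSucc
        map_add' := fun _ _ => rfl
        map_smul' := fun _ _ => rfl }
    refine LinearIndependent.of_comp π ?_
    exact hli
  have hyk : ∀ i, y k i = ∑ j, t j * y j i := by
    intro i
    refine Fin.lastCases ?_ (fun i => ?_) i
    · rw [(hin k (by omega)).1]
      symm
      refine Finset.sum_eq_zero fun j _ => ?_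
      rw [(hin j (by have := j.2; omega)).1, mul_zero]
    · by_cases hi : e ≤ w i.castSucc
      · have h1 := congrFun ht ⟨i, hi⟩
        rw [Finset.sum_apply] at h1
        simp only [Pi.smul_apply, smul_eq_mul, hr] at h1
        exact h1.symm
      · rw [(hin k (by omega)).2 i (not_le.1 hi)]
        symm
        refine Finset.sum_eq_zero fun j _ => ?_
        rw [(hin j (by have := j.2; omega)).2 i (not_le.1 hi), mul_zero]
  have hsolve := fun i => solve _ (mono_indep (w := w) (fun j : Fin k => y j) hYli i (hw i))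
  choose S hScard hS using hsolve
  set I : Finset (Fin (m + 1)) := Finset.univ.filter fun i => i = Fin.last m ∨ e ≤ w i with hI
  have hIcard : u + 1 ≤ I.card := by
    have h1 : insert (Fin.last m) ((Finset.univ : Finset J).image fun i => i.1.castSucc) ⊆ I := by
      intro i hi
      rw [Finset.mem_insert, Finset.mem_image] at hi
      rw [hI, Finset.mem_filter]
      refine ⟨Finset.mem_univ _, ?_⟩
      rcases hi with hi | ⟨j, -, rfl⟩
      · exact Or.inl hi
      · exact Or.inr j.2
    have h2 := Finset.card_le_card h1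
    rw [Finset.card_insert_of_notMem, Finset.card_image_of_injective, Finset.card_univ] at h2
    · exact h2
    · intro i j h
      exact Subtype.ext (Fin.castSucc_injective m h)
    · rw [Finset.mem_image]
      rintro ⟨j, -, h⟩
      exact (Fin.castSucc_lt_last j.1).ne h
  set Rm : Finset (VIdx m w) := I.sigma S with hRm
  have hRmcard : (u + 1) * k ≤ Rm.card := by
    rw [hRm, Finset.card_sigma, Finset.sum_congr rfl fun i _ => hScard i, Finset.sum_const,
      smul_eq_mul]
    exact Nat.mul_le_mul_right _ hIcard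
  set G : Finset E := (((Finset.univ : Finset (Fin k × J)).erase
      (⟨0, hk1⟩, ⟨i₀, hi₀e⟩)).image fun q : Fin k × J => y q.1 q.2.1.castSucc) ∪
    (Finset.univ.image t) ∪ (Rmᶜ.image c) with hG
  have hGcard : G.card < Fintype.card (VIdx m w) := by
    have h1 : G.card ≤ (k * u - 1) + k + (Fintype.card (VIdx m w) - Rm.card) := by
      refine (Finset.card_union_le _ _).trans (Nat.add_le_add ((Finset.card_union_le _ _).trans
        (Nat.add_le_add ?_ ?_)) ?_)
      · refine Finset.card_image_le.trans ?_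
        rw [Finset.card_erase_of_mem (Finset.mem_univ _), Finset.card_univ, Fintype.card_prod,
          Fintype.card_fin]
      · refine Finset.card_image_le.trans ?_
        rw [Finset.card_univ, Fintype.card_fin]
      · refine Finset.card_image_le.trans ?_
        rw [Finset.card_compl]
    have h2 : Rm.card ≤ Fintype.card (VIdx m w) := Finset.card_le_univ _
    have h3 : (u + 1) * k = k * u + k := by ring
    have h4 : 1 ≤ k * u := Nat.mul_pos hk1 (hk1.trans hku)
    omega
  set F : Subfield E := Subfield.closure (G : Set E) with hF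
  have hsub : ∀ x ∈ G, x ∈ F := fun x hx => Subfield.subset_closure hx
  have hyF : ∀ j, j < k → ∀ i, y j i ∈ F := by
    intro j hj i
    refine Fin.lastCases ?_ (fun i => ?_) i
    · rw [(hin j (by omega)).1]
      exact zero_mem F
    · by_cases hi : e ≤ w i.castSucc
      · by_cases h0 : j = 0 ∧ i = i₀
        · obtain ⟨rfl, rfl⟩ := h0
          rw [hy0]
          exact one_mem F
        · apply hsub
          rw [hG, Finset.mem_union, Finset.mem_union]
          refine Or.inl (Or.inl (Finset.mem_image.2 ⟨(⟨j, hj⟩, ⟨i, hi⟩),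
            Finset.mem_erase.2 ⟨?_, Finset.mem_univ _⟩, rfl⟩))
          intro h
          rw [Prod.mk.injEq, Fin.mk.injEq, Subtype.mk.injEq] at h
          exact h0 h
      · rw [(hin j (by omega)).2 i (not_le.1 hi)]
        exact zero_mem F
  have htF : ∀ j, t j ∈ F := by
    intro j
    apply hsub
    rw [hG, Finset.mem_union, Finset.mem_union]
    exact Or.inl (Or.inr (Finset.mem_image.2 ⟨j, Finset.mem_univ _, rfl⟩))
  have hyF' : ∀ j, j ≤ k → ∀ i, y j i ∈ F := by
    intro j hj i
    rcases Nat.lt_or_eq_of_le hj with h | h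
    · exact hyF j h i
    · rw [h, hyk]
      exact sum_mem fun j _ => mul_mem (htF j) (hyF j j.2 i)
  have hcR : ∀ κ, κ ∉ Rm → c κ ∈ F := by
    intro κ hκ
    apply hsub
    rw [hG, Finset.mem_union]
    exact Or.inr (Finset.mem_image.2 ⟨κ, Finset.mem_compl.2 hκ, rfl⟩)
  have hval : ∀ i ∈ I, ∀ j, j < k → eval (y j) (vF c i) ∈ F := by
    intro i hi j hj
    rw [hI, Finset.mem_filter] at hi
    obtain ⟨-, -, h5, h6, h7⟩ := hyx j (by omega)
    revert hi
    refine Fin.lastCases (fun _ => ?_) (fun i => ?_) i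
    · rw [h6]
      exact zero_mem F
    · rintro ⟨-, h | h⟩
      · exact absurd h (Fin.castSucc_lt_last i).ne
      · rcases Nat.lt_or_eq_of_le h with h8 | h8
        · rw [h5 i h8]
          exact zero_mem F
        · rw [← h7 i h8.symm]
          exact hyF' _ hj _
  have hall : ∀ i ∈ I, ∀ s, c ⟨i, s⟩ ∈ F := by
    intro i hi
    refine hS i F (fun j s => ?_) (fun s => c ⟨i, s⟩) ?_ ?_
    · split_ifs
      · exact prod_mem fun a _ => pow_mem (hyF j j.2 a) _
      · exact zero_mem F
    · intro s hs
      apply hcR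
      rw [hRm, Finset.mem_sigma]
      exact fun h => hs h.2
    · intro j
      have h1 := hval i hi j j.2
      rw [eval_vF] at h1
      have h2 : (∑ s : {s : Fin (m + 1) →₀ ℕ // s.degree ≤ w i},
          (if (s : Fin (m + 1) →₀ ℕ).degree = w i then
            ∏ a, y j a ^ (s : Fin (m + 1) →₀ ℕ) a else 0) * c ⟨i, s⟩) =
          ∑ s : {s : Fin (m + 1) →₀ ℕ // s.degree ≤ w i},
            if (s : Fin (m + 1) →₀ ℕ).degree = w i then
              c ⟨i, s⟩ * ∏ a, y j a ^ (s : Fin (m + 1) →₀ ℕ) a else 0 := by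
        refine Finset.sum_congr rfl fun s _ => ?_
        split_ifs
        · exact mul_comm _ _
        · exact zero_mul _
      rw [h2]
      exact h1
  refine not_indep c hc (G : Set E) (by
    rw [Set.encard_coe_eq_coe_finsetCard]
    exact_mod_cast hGcard) fun κ => ?_
  by_cases hκ : κ ∈ Rm
  · rw [hRm, Finset.mem_sigma] at hκ
    exact hall κ.1 hκ.1 κ.2
  · exact hcR κ hκ

end Pool.Agent.Helper87.AP
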