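import Pool.Agent.Helper86.AP.Main
import Pool.Agent.Helper87.AP.Cert2
import Pool.Agent.Helper87.AP.GenB
import Pool.Agent.Helper26.GG.Gen

/-!
# The conditions of the trap theorem hold outside a hypersurface, over every field
-/

set_option autoImplicit false

namespace Pool.Agent.Helper87.AP

open MvPolynomial
open Pool.Agent.Helper26.DV
open Pool.Agent.Helper86.DV (eval_vP eval_vF)
open Pool.Agent.Helper86.AP (V1b V2b)
open Pool.Agent.Helper86.MQ (pm)

variable {m : ℕ} {w : Fin (m + 1) → ℕ}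

theorem map_vP {R S : Type*} [CommRing R] [CommRing S] (φ : R →+* S) (c : VIdx m w → R)
    (i : Fin (m + 1)) : map φ (vP c i) = vP (fun k => φ (c k)) i := by
  rw [vP, vP, map_sum]
  refine Finset.sum_congr rfl fun t _ => ?_
  rw [map_monomial]

theorem map_vF {R S : Type*} [CommRing R] [CommRing S] (φ : R →+* S) (c : VIdx m w → R)
    (i : Fin (m + 1)) : map φ (vF c i) = vF (fun k => φ (c k)) i := by
  classical
  ext s
  rw [coeff_map, vF, vF, coeff_homogeneousComponent, coeff_homogeneousComponent, ← map_vP φ c i,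
    coeff_map]
  split_ifs
  · rfl
  · exact map_zero φ

/-- the generic coefficients -/
noncomputable def gX (m : ℕ) (w : Fin (m + 1) → ℕ) (k : VIdx m w) :
    MvPolynomial (VIdx m w) ℤ := X k

/-- the variables: points numbered by `0, …, m + 1` -/
abbrev Tau (m : ℕ) : Type := Fin (m + 2) × Fin (m + 1)

/-- a polynomial at the point with number `j` -/
noncomputable def atp {A : Type*} [CommRing A] (j : Fin (m + 2)) (P : MvPolynomial (Fin (m + 1)) A) :
    MvPolynomial (Tau m) A := rename (fun a => (j, a)) P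

theorem eval_atp {A F : Type*} [CommRing A] [CommRing F] (φ : A →+* F) (x : Tau m → F)
    (j : Fin (m + 2)) (P : MvPolynomial (Fin (m + 1)) A) :
    eval₂ φ x (atp j P) = eval (fun a => x (j, a)) (map φ P) := by
  rw [atp, eval₂_rename, eval_map]
  rfl

theorem eval_atp_vP {F : Type*} [CommRing F] (c : VIdx m w → F) (x : Tau m → F)
    (j : Fin (m + 2)) (i : Fin (m + 1)) :
    eval₂ (cm c) x (atp j (vP (gX m w) i)) = eval (fun a => x (j, a)) (vP c i) := by
  rw [eval_atp, map_vP]
  congr 2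
  funext k
  exact cm_X c k

theorem eval_atp_vF {F : Type*} [CommRing F] (c : VIdx m w → F) (x : Tau m → F)
    (j : Fin (m + 2)) (i : Fin (m + 1)) :
    eval₂ (cm c) x (atp j (vF (gX m w) i)) = eval (fun a => x (j, a)) (vF c i) := by
  rw [eval_atp, map_vF]
  congr 2
  funext k
  exact cm_X c k

/-- the equations of the orbits in the hyperplane -/
noncomputable def eqA (m : ℕ) (w : Fin (m + 1) → ℕ)
    (q : Fin (m + 2) ⊕ (Fin (m + 1) × Fin (m + 1))) :
    MvPolynomial (Tau m) (MvPolynomial (VIdx m w) ℤ) :=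
  Sum.elim (fun j => X (j, Fin.last m))
    (fun q => X (q.1.succ, q.2) - atp q.1.castSucc (vP (gX m w) q.2)) q

/-- the sequence of the points -/
noncomputable def sq {F : Type*} [Zero F] (x : Tau m → F) (n : ℕ) (a : Fin (m + 1)) : F :=
  if h : n < m + 2 then x (⟨n, h⟩, a) else 0

theorem sq_eq {F : Type*} [Zero F] (x : Tau m → F) (j : Fin (m + 2)) :
    sq x j = fun a => x (j, a) := by
  funext a
  rw [sq, dif_pos j.2]

theorem exists_RA (hw : ∀ i, 1 ≤ w i) : ∃ R : MvPolynomial (VIdx m w) ℤ, R ≠ 0 ∧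
    ∀ {F : Type*} [Field F] (c : VIdx m w → F), aeval c R ≠ 0 → V1b c (m + 1) := by
  classical
  obtain ⟨R, hR, h⟩ := certificate' (eqA m w) 1 (by
    intro E _ _ c hc x hx
    exfalso
    refine genA hw c hc (sq x) ?_ ?_
    · intro j hj
      have h1 := hx (Sum.inl ⟨j, by omega⟩)
      rw [eqA, Sum.elim_inl, eval₂_X] at h1
      rw [sq, dif_pos (by omega)]
      exact h1
    · intro j hj
      funext i
      have h1 := hx (Sum.inr (⟨j, by omega⟩, i))
      rw [eqA, Sum.elim_inr, eval₂_sub, eval₂_X, eval_atp_vP, sub_eq_zero] at h1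
      have h2 := congrFun (sq_eq x (Fin.succ ⟨j, by omega⟩)) i
      have h3 := sq_eq x (Fin.castSucc ⟨j, by omega⟩)
      rw [Fin.val_succ] at h2
      rw [Fin.val_castSucc] at h3
      dsimp only at h2 h3 h1
      rw [h2, h1, ← h3]
      rfl)
  refine ⟨R, hR, fun {F} _ c hc x hx0 => ?_⟩
  by_contra hcon
  push Not at hcon
  have h1 := h c hc (fun q => (pm (vP c))^[q.1] x q.2) (by
    rintro (j | ⟨j, i⟩)
    · rw [eqA, Sum.elim_inl, eval₂_X]
      exact hcon j (by have := j.2; omega)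
    · rw [eqA, Sum.elim_inr, eval₂_sub, eval₂_X, eval_atp_vP, sub_eq_zero]
      simp only [Fin.val_succ, Fin.val_castSucc, Function.iterate_succ_apply']
      rfl)
  rw [eval₂_one] at h1
  exact one_ne_zero h1

/-- the indices of the equations of the chains -/
abbrev IB (m : ℕ) : Type :=
  Fin (m + 2) ⊕ (Fin (m + 2) × Fin m) ⊕ (Fin (m + 1) × Fin m) ⊕ Fin (m + 1)

/-- the equations of the chains on the level `e` -/
noncomputable def eqB (m : ℕ) (w : Fin (m + 1) → ℕ) (e : ℕ) (q : IB m) :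
    MvPolynomial (Tau m) (MvPolynomial (VIdx m w) ℤ) :=
  Sum.elim (fun j => X (j, Fin.last m))
    (Sum.elim (fun q => if w q.2.castSucc < e then X (q.1, q.2.castSucc) else 0)
      (Sum.elim (fun q => if e < w q.2.castSucc then atp q.1.castSucc (vF (gX m w) q.2.castSucc)
        else if w q.2.castSucc = e then
          X (q.1.succ, q.2.castSucc) - atp q.1.castSucc (vF (gX m w) q.2.castSucc) else 0)
        (fun n => atp n.castSucc (vF (gX m w) (Fin.last m))))) q

theorem eqB_iff {F : Type*} [Field F] (c : VIdx m w → F) (e : ℕ) (x : ℕ → Fin (m + 1) → F) :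
    (∀ q, eval₂ (cm c) (fun t : Tau m => x t.1 t.2) (eqB m w e q) = 0) ↔
      ∀ n, n < m + 1 → Rel c e (x n) (x (n + 1)) := by
  classical
  constructor
  · intro h
    have h1 : ∀ n, n < m + 2 → x n (Fin.last m) = 0 := by
      intro n hn
      have := h (Sum.inl ⟨n, hn⟩)
      rw [eqB, Sum.elim_inl, eval₂_X] at this
      exact this
    have h2 : ∀ n, n < m + 2 → ∀ i : Fin m, w i.castSucc < e → x n i.castSucc = 0 := by
      intro n hn i hi
      have := h (Sum.inr (Sum.inl (⟨n, hn⟩, i)))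
      rw [eqB, Sum.elim_inr, Sum.elim_inl, if_pos hi, eval₂_X] at this
      exact this
    intro n hn
    refine ⟨⟨h1 n (by omega), h2 n (by omega)⟩, ⟨h1 _ (by omega), h2 _ (by omega)⟩,
      fun i hi => ?_, ?_, fun i hi => ?_⟩
    · have := h (Sum.inr (Sum.inr (Sum.inl (⟨n, hn⟩, i))))
      rw [eqB, Sum.elim_inr, Sum.elim_inr, Sum.elim_inl, if_pos hi, eval_atp_vF] at this
      exact this
    · have := h (Sum.inr (Sum.inr (Sum.inr ⟨n, hn⟩)))
      rw [eqB, Sum.elim_inr, Sum.elim_inr, Sum.elim_inr, eval_atp_vF] at this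
      exact this
    · have := h (Sum.inr (Sum.inr (Sum.inl (⟨n, hn⟩, i))))
      rw [eqB, Sum.elim_inr, Sum.elim_inr, Sum.elim_inl, if_neg (by dsimp only; omega),
        if_pos hi, eval₂_sub, eval₂_X, eval_atp_vF, sub_eq_zero] at this
      exact this
  · intro h q
    have hin : ∀ n, n < m + 2 → InV w e (x n) := by
      intro n hn
      rcases Nat.lt_or_eq_of_le (Nat.le_of_lt_succ hn) with h1 | h1
      · exact (h n h1).1
      · subst h1
        exact (h m (by omega)).2.1
    rcases q with j | ⟨j, i⟩ | ⟨n, i⟩ | n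
    · rw [eqB, Sum.elim_inl, eval₂_X]
      exact (hin j j.2).1
    · rw [eqB, Sum.elim_inr, Sum.elim_inl]
      split_ifs with hi
      · rw [eval₂_X]
        exact (hin j j.2).2 i hi
      · exact eval₂_zero _ _
    · rw [eqB, Sum.elim_inr, Sum.elim_inr, Sum.elim_inl]
      obtain ⟨-, -, h5, h6, h7⟩ := h n n.2
      dsimp only
      split_ifs with h8 h9
      · rw [eval_atp_vF]
        exact h5 i h8
      · rw [eval₂_sub, eval₂_X, eval_atp_vF, sub_eq_zero]
        exact h7 i h9
      · exact eval₂_zero _ _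
    · rw [eqB, Sum.elim_inr, Sum.elim_inr, Sum.elim_inr, eval_atp_vF]
      exact (h n n.2).2.2.2.1

theorem exists_RB (hw : ∀ i, 1 ≤ w i) (e : ℕ) (i : Fin (m + 1)) :
    ∃ R : MvPolynomial (VIdx m w) ℤ, R ≠ 0 ∧
      ∀ {F : Type*} [Field F] (c : VIdx m w → F), aeval c R ≠ 0 →
        ∀ x : ℕ → Fin (m + 1) → F, (∀ n, n < m + 1 → Rel c e (x n) (x (n + 1))) → x 0 i = 0 := by
  classical
  obtain ⟨R, hR, h⟩ := certificate' (eqB m w e) (X (0, i)) (by
    intro E _ _ c hc x hx
    have h1 : x = fun t : Tau m => sq x t.1 t.2 := by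
      funext ⟨j, a⟩
      exact (congrFun (sq_eq x j) a).symm
    rw [h1, eqB_iff] at hx
    have h2 := genB hw c hc e (sq x) fun n hn => hx n (by omega)
    rw [eval₂_X]
    have h3 := congrFun h2 i
    have h4 := congrFun (sq_eq x 0) i
    rw [Pi.zero_apply] at h3
    rw [← h4]
    exact h3)
  refine ⟨R, hR, fun {F} _ c hc x hx => ?_⟩
  have h1 := h c hc (fun t : Tau m => x t.1 t.2) ((eqB_iff c e x).2 hx)
  rw [eval₂_X] at h1
  exact h1

/-- **One polynomial for both conditions.** -/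
theorem exists_R (hw : ∀ i, 1 ≤ w i) : ∃ R : MvPolynomial (VIdx m w) ℤ, R ≠ 0 ∧
    ∀ {F : Type*} [Field F] (c : VIdx m w → F), aeval c R ≠ 0 →
      V1b c (m + 1) ∧ V2b c (m + 1) := by
  classical
  obtain ⟨RA, hRA, hA⟩ := exists_RA (m := m) hw
  choose RB hRB hB using fun (q : Fin (∑ i, w i + 1) × Fin (m + 1)) =>
    exists_RB (m := m) hw (q.1 : ℕ) q.2
  refine ⟨RA * ∏ q, RB q, mul_ne_zero hRA (Finset.prod_ne_zero_iff.2 fun q _ => hRB q),
    fun {F} _ c hc => ?_⟩
  rw [map_mul, map_prod] at hc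
  have hc1 := left_ne_zero_of_mul hc
  have hc2 := Finset.prod_ne_zero_iff.1 (right_ne_zero_of_mul hc)
  refine ⟨hA c hc1, fun e x hx => ?_⟩
  by_cases he : e < ∑ i, w i + 1
  · funext i
    exact hB (⟨e, he⟩, i) c (hc2 _ (Finset.mem_univ _)) x hx
  · obtain ⟨h1, -⟩ := hx 0 (by omega)
    funext i
    refine Fin.lastCases h1.1 (fun i => h1.2 i ?_) i
    have := Finset.single_le_sum (f := w) (fun _ _ => Nat.zero_le _)
      (Finset.mem_univ i.castSucc)
    omega

end Pool.Agent.Helper87.AP
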