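import Mathlib

/-!
# Dimension counts and linear systems
-/

set_option autoImplicit false

namespace Pool.Agent.Helper87.AP

theorem alg_of_closure {E : Type*} [Field E] [CharZero E] (S : Set E) {x : E}
    (hx : x ∈ Subfield.closure S) : IsAlgebraic (Algebra.adjoin ℤ S) x := by
  induction hx using Subfield.closure_induction with
  | mem x hx => exact isAlgebraic_algebraMap (⟨x, Algebra.subset_adjoin hx⟩ : Algebra.adjoin ℤ S)
  | one => exact isAlgebraic_one
  | add x y _ _ hx hy => exact hx.add hy
  | neg x _ hx => exact hx.neg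
  | inv x _ hx => exact hx.inv
  | mul x y _ _ hx hy => exact hx.mul hy

/-- Elements of the field generated by fewer elements are not independent. -/
theorem not_indep {E : Type*} [Field E] [CharZero E] {σ : Type*} [Fintype σ] (c : σ → E)
    (hc : AlgebraicIndependent ℤ c) (S : Set E) (hS : S.encard < Fintype.card σ)
    (h : ∀ k, c k ∈ Subfield.closure S) : False := by
  classical
  haveI : FaithfulSMul ℤ E := (faithfulSMul_iff_algebraMap_injective ℤ E).2 (by
    rw [algebraMap_int_eq]
    exact Int.cast_injective)
  set M := AlgebraicIndependent.matroid ℤ E with hM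
  have hind : M.Indep (Set.range c) := by
    rw [hM, AlgebraicIndependent.matroid_indep_iff]
    exact hc.coe_range
  have hsub : Set.range c ⊆ M.closure S := by
    rw [hM, AlgebraicIndependent.matroid_closure_eq]
    rintro _ ⟨k, rfl⟩
    exact alg_of_closure S (h k)
  have h1 := hind.encard_le_eRk_of_subset hsub
  rw [M.eRk_closure_eq] at h1
  have h2 := h1.trans (M.eRk_le_encard S)
  have h3 : (Set.range c).encard = Fintype.card σ := by
    rw [← Set.image_univ, hc.injective.encard_image, Set.encard_univ, ENat.card_eq_coe_fintype_card]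
  rw [h3] at h2
  exact absurd hS (not_lt.2 h2)

/-- Among the unknowns of a linear system with linearly independent rows one can choose as many as
there are rows which are determined by the others, over every subfield. -/
theorem solve {E : Type*} [Field E] {ι : Type*} [Fintype ι] {k : ℕ} (a : Fin k → ι → E)
    (ha : LinearIndependent E a) :
    ∃ S : Finset ι, S.card = k ∧ ∀ (F : Subfield E), (∀ j i, a j i ∈ F) →
      ∀ b : ι → E, (∀ i ∉ S, b i ∈ F) → (∀ j, ∑ i, a j i * b i ∈ F) → ∀ i, b i ∈ F := by
  classical
  set v : ι → Fin k → E := fun i j => a j i with hv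
  have hspan : Submodule.span E (Set.range v) = ⊤ := by
    set A : Matrix (Fin k) ι E := Matrix.of a with hA
    have h1 : A.rank = k := by
      have h2 : LinearIndependent E A.row := ha
      rw [h2.rank_matrix, Fintype.card_fin]
    rw [Matrix.rank_eq_finrank_span_cols] at h1
    apply Submodule.eq_top_of_finrank_eq
    rw [Module.finrank_fin_fun]
    exact h1
  obtain ⟨κ, f, hf, hsp, hli⟩ := exists_linearIndependent' E v
  rw [hspan] at hsp
  let bs : Module.Basis κ E (Fin k → E) := Module.Basis.mk hli hsp.ge
  haveI : Finite κ := Module.Finite.finite_basis bs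
  haveI : Fintype κ := Fintype.ofFinite κ
  have hcard : Fintype.card κ = k := by
    rw [← Module.finrank_eq_card_basis bs, Module.finrank_fin_fun]
  let e : κ ≃ Fin k := Fintype.equivFinOfCardEq hcard
  refine ⟨Finset.univ.image f, by
    rw [Finset.card_image_of_injective _ hf, Finset.card_univ, hcard], ?_⟩
  intro F haF b hb hsum
  set M₀ : Matrix (Fin k) (Fin k) F := Matrix.of fun j l => ⟨a j (f (e.symm l)), haF _ _⟩ with hM₀
  set M : Matrix (Fin k) (Fin k) E := F.subtype.mapMatrix M₀ with hM
  have hMa : ∀ j l, M j l = a j (f (e.symm l)) := fun j l => rfl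
  have hdet : M.det ≠ 0 := by
    have h1 : LinearIndependent E M.col := by
      have h2 : M.col = (v ∘ f) ∘ e.symm := by
        funext l j
        exact hMa j l
      rw [h2]
      exact hli.comp _ e.symm.injective
    rw [Matrix.linearIndependent_cols_iff_isUnit, Matrix.isUnit_iff_isUnit_det] at h1
    exact h1.ne_zero
  set y : Fin k → E := fun l => b (f (e.symm l)) with hy
  have hrhs : ∀ j, M.mulVec y j ∈ F := by
    intro j
    have h1 : ∑ i, a j i * b i = ∑ i ∈ Finset.univ.image f, a j i * b i +
        ∑ i ∈ (Finset.univ.image f)ᶜ, a j i * b i :=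
      (Finset.sum_add_sum_compl _ _).symm
    have h2 : ∑ i ∈ Finset.univ.image f, a j i * b i = M.mulVec y j := by
      rw [Finset.sum_image fun x _ y _ h => hf h, Matrix.mulVec, dotProduct,
        ← Equiv.sum_comp e]
      refine Finset.sum_congr rfl fun x _ => ?_
      rw [hMa, hy]
      simp only [Equiv.symm_apply_apply]
    have h3 : ∑ i ∈ (Finset.univ.image f)ᶜ, a j i * b i ∈ F :=
      sum_mem fun i hi => mul_mem (haF _ _) (hb i (Finset.mem_compl.1 hi))
    rw [← h2]
    have h4 := sub_mem (hsum j) h3
    rw [h1, add_sub_cancel_right] at h4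
    exact h4
  have hyF : ∀ l, y l ∈ F := by
    intro l
    have h1 : M.adjugate.mulVec (M.mulVec y) = M.det • y := by
      rw [Matrix.mulVec_mulVec, Matrix.adjugate_mul, Matrix.smul_mulVec, Matrix.one_mulVec]
    have h2 : ∀ i j, M.adjugate i j ∈ F := by
      intro i j
      rw [hM, ← RingHom.map_adjugate]
      exact (M₀.adjugate i j).2
    have h3 : M.det ∈ F := by
      rw [hM, ← RingHom.map_det]
      exact M₀.det.2
    have h4 : M.det * y l ∈ F := by
      have h5 := congrFun h1 l
      rw [Pi.smul_apply, smul_eq_mul] at h5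
      rw [← h5, Matrix.mulVec, dotProduct]
      exact sum_mem fun j _ => mul_mem (h2 _ _) (hrhs j)
    have h5 : y l = M.det⁻¹ * (M.det * y l) := by
      rw [inv_mul_cancel_left₀ hdet]
    rw [h5]
    exact mul_mem (inv_mem h3) h4
  intro i
  by_cases hi : i ∈ Finset.univ.image f
  · rw [Finset.mem_image] at hi
    obtain ⟨x, -, rfl⟩ := hi
    have h1 := hyF (e x)
    rw [hy] at h1
    simp only [Equiv.symm_apply_apply] at h1
    exact h1
  · exact hb i hi

end Pool.Agent.Helper87.AP
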