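import Pool.Agent.Helper86.DV.Trap
import Pool.Agent.Helper87.AP.Trdeg

/-!
# No generic orbit stays in the hyperplane
-/

set_option autoImplicit false

namespace Pool.Agent.Helper87.AP

open MvPolynomial
open Pool.Agent.Helper26.DV
open Pool.Agent.Helper86.DV (eval_vP eval_vF)
open Pool.Agent.Helper86.MQ (pm)

/-- The first dependence in a sequence of vectors. -/
theorem first_dep {E V : Type*} [Field E] [AddCommGroup V] [Module E V] [FiniteDimensional E V]
    (r : ℕ → V) : ∃ k, k ≤ Module.finrank E V ∧ LinearIndependent E (fun j : Fin k => r j) ∧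
      r k ∈ Submodule.span E (Set.range fun j : Fin k => r j) := by
  classical
  have hex : ∃ k, ¬ LinearIndependent E (fun j : Fin (k + 1) => r j) := by
    refine ⟨Module.finrank E V, fun h => ?_⟩
    have h1 := h.fintype_card_le_finrank
    rw [Fintype.card_fin] at h1
    omega
  set k := Nat.find hex with hk
  have h1 : LinearIndependent E (fun j : Fin k => r j) := by
    rcases Nat.eq_zero_or_pos k with h0 | h0
    · rw [h0]
      exact linearIndependent_empty_type
    · obtain ⟨l, hl⟩ : ∃ l, k = l + 1 := ⟨k - 1, by omega⟩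
      have h2 := Nat.find_min hex (show l < Nat.find hex by omega)
      rw [not_not] at h2
      rw [hl]
      exact h2
  refine ⟨k, ?_, h1, ?_⟩
  · have h2 := h1.fintype_card_le_finrank
    rwa [Fintype.card_fin] at h2
  · have h2 := Nat.find_spec hex
    rw [linearIndependent_fin_succ'] at h2
    by_contra hcon
    exact h2 ⟨h1, hcon⟩

variable {m : ℕ} {w : Fin (m + 1) → ℕ}

open Classical in
/-- the exponents of degree at most one without the last variable -/
noncomputable def ex (m : ℕ) (l : Fin (m + 1)) : Fin (m + 1) →₀ ℕ :=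
  if l = Fin.last m then 0 else Finsupp.single l 1

theorem ex_degree (l : Fin (m + 1)) : (ex m l).degree ≤ 1 := by
  rw [ex]
  split_ifs
  · simp
  · rw [Finsupp.degree_single]

theorem ex_injective : Function.Injective (ex m) := by
  intro l l' h
  rw [ex, ex] at h
  split_ifs at h with h1 h2 h2
  · rw [h1, h2]
  · exfalso
    have := DFunLike.congr_fun h l'
    simp at this
  · exfalso
    have := DFunLike.congr_fun h l
    simp at this
  · rwa [Finsupp.single_left_inj one_ne_zero] at h

/-- the index of an affine coefficient -/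
noncomputable def kx (hw : ∀ i, 1 ≤ w i) (q : Fin (m + 1) × Fin (m + 1)) : VIdx m w :=
  ⟨q.1, ⟨ex m q.2, (ex_degree q.2).trans (hw q.1)⟩⟩

theorem kx_injective (hw : ∀ i, 1 ≤ w i) : Function.Injective (kx hw) := by
  rintro ⟨i, l⟩ ⟨i', l'⟩ h
  have h1 : i = i' := congrArg Sigma.fst h
  subst h1
  have h2 := eq_of_heq (Sigma.mk.inj h).2
  have h3 : ex m l = ex m l' := congrArg Subtype.val h2
  rw [ex_injective h3]

/-- **The generic orbits leave the hyperplane.** -/
theorem genA {E : Type*} [Field E] [CharZero E] (hw : ∀ i, 1 ≤ w i) (c : VIdx m w → E)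
    (hc : AlgebraicIndependent ℤ c) (z : ℕ → Fin (m + 1) → E)
    (hz0 : ∀ j, j ≤ m + 1 → z j (Fin.last m) = 0)
    (hz1 : ∀ j, j ≤ m → z (j + 1) = pm (vP c) (z j)) : False := by
  classical
  set r : ℕ → Fin (m + 1) → E := fun j => Function.update (z j) (Fin.last m) 1 with hr
  obtain ⟨k, hk, hli, hspan⟩ := first_dep (E := E) r
  rw [Module.finrank_fin_fun] at hk
  have hk1 : 1 ≤ k := by
    by_contra h0
    have h1 : k = 0 := by omega
    subst h1
    rw [Set.range_eq_empty, Submodule.span_empty, Submodule.mem_bot] at hspan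
    have h2 := congrFun hspan (Fin.last m)
    rw [hr] at h2
    simp at h2
  rw [Submodule.mem_span_range_iff_exists_fun] at hspan
  obtain ⟨t, ht⟩ := hspan
  obtain ⟨S, hScard, hS⟩ := solve (fun j : Fin k => r j) hli
  set Rm : Finset (VIdx m w) := (Finset.univ ×ˢ S).image (kx hw) with hRm
  have hRmcard : Rm.card = (m + 1) * k := by
    rw [hRm, Finset.card_image_of_injective _ (kx_injective hw), Finset.card_product,
      Finset.card_univ, Fintype.card_fin, hScard]
  set G : Finset E := (Finset.univ.image fun q : Fin k × Fin m => z q.1 q.2.castSucc) ∪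
    ((Finset.univ.erase (⟨0, hk1⟩ : Fin k)).image t) ∪ (Rmᶜ.image c) with hG
  have hGcard : G.card < Fintype.card (VIdx m w) := by
    have h1 : G.card ≤ k * m + (k - 1) + (Fintype.card (VIdx m w) - (m + 1) * k) := by
      refine (Finset.card_union_le _ _).trans (Nat.add_le_add ((Finset.card_union_le _ _).trans
        (Nat.add_le_add ?_ ?_)) ?_)
      · refine Finset.card_image_le.trans ?_
        rw [Finset.card_univ, Fintype.card_prod, Fintype.card_fin, Fintype.card_fin]
      · refine Finset.card_image_le.trans ?_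
        rw [Finset.card_erase_of_mem (Finset.mem_univ _), Finset.card_univ, Fintype.card_fin]
      · refine Finset.card_image_le.trans ?_
        rw [Finset.card_compl, hRmcard]
    have h2 : (m + 1) * k ≤ Fintype.card (VIdx m w) := by
      rw [← hRmcard]
      exact Finset.card_le_univ _
    have h3 : (m + 1) * k = k * m + k := by ring
    omega
  set F : Subfield E := Subfield.closure (G : Set E) with hF
  have hsub : ∀ x ∈ G, x ∈ F := fun x hx => Subfield.subset_closure hx
  have hz : ∀ j, j < k → ∀ i, z j i ∈ F := by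
    intro j hj i
    refine Fin.lastCases ?_ (fun i => ?_) i
    · rw [hz0 j (by omega)]
      exact zero_mem F
    · apply hsub
      rw [hG, Finset.mem_union, Finset.mem_union]
      exact Or.inl (Or.inl (Finset.mem_image.2 ⟨(⟨j, hj⟩, i), Finset.mem_univ _, rfl⟩))
  have hrF : ∀ j, j < k → ∀ i, r j i ∈ F := by
    intro j hj i
    rw [hr]
    by_cases hi : i = Fin.last m
    · subst hi
      simp only [Function.update_self]
      exact one_mem F
    · simp only [Function.update_of_ne hi]
      exact hz j hj i
  have ht1 : ∀ j : Fin k, j ≠ ⟨0, hk1⟩ → t j ∈ F := by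
    intro j hj
    apply hsub
    rw [hG, Finset.mem_union, Finset.mem_union]
    exact Or.inl (Or.inr (Finset.mem_image.2 ⟨j, Finset.mem_erase.2 ⟨hj, Finset.mem_univ _⟩, rfl⟩))
  have hlast : ∑ j, t j = 1 := by
    have h1 := congrFun ht (Fin.last m)
    rw [Finset.sum_apply] at h1
    simp only [hr, Pi.smul_apply, Function.update_self, smul_eq_mul, mul_one] at h1
    exact h1
  have htF : ∀ j, t j ∈ F := by
    intro j
    by_cases hj : j = ⟨0, hk1⟩
    · rw [hj]
      have h1 := Finset.add_sum_erase Finset.univ t (Finset.mem_univ (⟨0, hk1⟩ : Fin k))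
      have h2 : t ⟨0, hk1⟩ = 1 - ∑ j ∈ Finset.univ.erase (⟨0, hk1⟩ : Fin k), t j := by
        rw [← hlast, ← h1]
        ring
      rw [h2]
      exact sub_mem (one_mem F) (sum_mem fun j hj => ht1 j (Finset.ne_of_mem_erase hj))
    · exact ht1 j hj
  have hzk : ∀ i, z k i ∈ F := by
    intro i
    refine Fin.lastCases ?_ (fun i => ?_) i
    · rw [hz0 k hk]
      exact zero_mem F
    · have h1 := congrFun ht i.castSucc
      rw [Finset.sum_apply] at h1
      have h2 : r k i.castSucc = z k i.castSucc := by
        rw [hr]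
        simp only [Function.update_of_ne (Fin.castSucc_lt_last i).ne]
      rw [h2] at h1
      rw [← h1]
      exact sum_mem fun j _ => mul_mem (htF j) (hrF j j.2 _)
  have hz' : ∀ j, j ≤ k → ∀ i, z j i ∈ F := by
    intro j hj i
    rcases Nat.lt_or_eq_of_le hj with h | h
    · exact hz j h i
    · rw [h]
      exact hzk i
  have hcR : ∀ κ, κ ∉ Rm → c κ ∈ F := by
    intro κ hκ
    apply hsub
    rw [hG, Finset.mem_union]
    exact Or.inr (Finset.mem_image.2 ⟨κ, Finset.mem_compl.2 hκ, rfl⟩)
  have hall : ∀ i l, c (kx hw (i, l)) ∈ F := by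
    intro i
    refine hS F (fun j l => hrF j j.2 l) (fun l => c (kx hw (i, l))) ?_ ?_
    · intro l hl
      apply hcR
      rw [hRm, Finset.mem_image]
      rintro ⟨⟨i', l'⟩, hmem, heq⟩
      have h1 := kx_injective hw heq
      rw [Prod.mk.injEq] at h1
      rw [Finset.mem_product] at hmem
      exact hl (h1.2 ▸ hmem.2)
    · intro j
      have h1 := congrFun (hz1 j (by have := j.2; omega)) i
      rw [pm, eval_vP] at h1
      have hinj : Function.Injective fun l : Fin (m + 1) =>
          (⟨ex m l, (ex_degree l).trans (hw i)⟩ : {s : Fin (m + 1) →₀ ℕ // s.degree ≤ w i}) :=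
        fun l l' h => ex_injective (congrArg Subtype.val h)
      set T : Finset {s : Fin (m + 1) →₀ ℕ // s.degree ≤ w i} :=
        Finset.univ.image fun l : Fin (m + 1) =>
          (⟨ex m l, (ex_degree l).trans (hw i)⟩ : {s : Fin (m + 1) →₀ ℕ // s.degree ≤ w i}) with hT
      have h2 : ∑ t ∈ T, c ⟨i, t⟩ * ∏ a, z j a ^ (t : Fin (m + 1) →₀ ℕ) a =
          ∑ l, r j l * c (kx hw (i, l)) := by
        rw [hT, Finset.sum_image fun x _ y _ h => hinj h]
        refine Finset.sum_congr rfl fun l _ => ?_
        rw [mul_comm]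
        refine congrArg₂ (· * ·) ?_ rfl
        change ∏ a, z j a ^ (ex m l) a = _
        rw [hr, ex]
        by_cases hl : l = Fin.last m
        · subst hl
          simp
        · rw [if_neg hl]
          simp only [Function.update_of_ne hl]
          rw [Finset.prod_eq_single l]
          · rw [Finsupp.single_eq_same, pow_one]
          · intro b _ hb
            rw [Finsupp.single_eq_of_ne hb, pow_zero]
          · intro h
            exact absurd (Finset.mem_univ _) h
      have h3 := Finset.sum_add_sum_compl T fun t =>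
        c ⟨i, t⟩ * ∏ a, z j a ^ (t : Fin (m + 1) →₀ ℕ) a
      rw [← h1, h2] at h3
      have h4 : ∑ t ∈ Tᶜ, c ⟨i, t⟩ * ∏ a, z j a ^ (t : Fin (m + 1) →₀ ℕ) a ∈ F := by
        refine sum_mem fun t ht => mul_mem (hcR _ ?_) (prod_mem fun a _ => pow_mem
          (hz j j.2 a) _)
        rw [hRm, Finset.mem_image]
        rintro ⟨⟨i', l'⟩, -, heq⟩
        have h5 : i' = i := congrArg Sigma.fst heq
        subst h5
        have h6 : (kx hw (i', l')).2 = t := eq_of_heq (Sigma.mk.inj heq).2
        rw [Finset.mem_compl, hT, Finset.mem_image] at ht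
        exact ht ⟨l', Finset.mem_univ _, h6⟩
      have h5 : ∑ l, r j l * c (kx hw (i, l)) = z (j + 1) i -
          ∑ t ∈ Tᶜ, c ⟨i, t⟩ * ∏ a, z j a ^ (t : Fin (m + 1) →₀ ℕ) a := by
        rw [← h3]
        ring
      rw [h5]
      exact sub_mem (hz' _ (by have := j.2; omega) i) h4
  refine not_indep c hc (G : Set E) (by
    rw [Set.encard_coe_eq_coe_finsetCard]
    exact_mod_cast hGcard) fun κ => ?_
  by_cases hκ : κ ∈ Rm
  · rw [hRm, Finset.mem_image] at hκ
    obtain ⟨⟨i, l⟩, -, rfl⟩ := hκ
    exact hall i l
  · exact hcR κ hκ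

end Pool.Agent.Helper87.AP
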