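import Pool.Agent.Helper86.AP.Emb
import Pool.Agent.Helper86.AP.Glue
import Pool.Agent.Helper17.AP.Orb
import Pool.Agent.Helper87.AP.Cond
import Pool.Agent.Helper87.UN.Main

/-!
# Uniform dynamical Mordell-Lang for all points whose degree is not divisible by the largest degree
-/

set_option autoImplicit false

namespace Pool.Agent.Helper87.AP

open MvPolynomial
open Pool.Agent.Helper26.DV
open Pool.Agent.Helper86.MQ (pm)
open Pool.Agent.Helper87.MQ (toC toQp exists_field_emb cw coeff_cw eval_cw hom_pm_iterate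
  totalDegree_le_of_coeff coeff_eq_zero_of_gt)
open Pool.Agent.Helper87.DV (vbox v_density vdom_of RV vbad3)
open Pool.Agent.Helper87.DMLP (primesFor not_summable_primesFor prime_of_mem_primesFor)
open Pool.Agent.Helper86.AP (V1b V2b exists_emb up trap_alg epre_of_vpre GE EPre)
open Pool.Agent.Helper17.AP (nav orb_of_GE)
open Pool.Agent.Helper87.UN (vdom_map unif_count Term ΦQ ΦR QK RB)

variable {m : ℕ} {w : Fin (m + 1) → ℕ}

/-- the inclusion of the prime field in the residue field -/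
noncomputable abbrev ip (p : ℕ) [Fact p.Prime] := Pool.Agent.Helper86.AP.ι p

/-- The exceptional residues. -/
theorem exists_BB (hw : ∀ i : Fin m, 1 ≤ w i.castSucc)
    (hw' : ∀ i : Fin m, w i.castSucc < w (Fin.last m)) (hd : 2 ≤ w (Fin.last m)) :
    ∃ C : ℕ, ∀ (q : ℕ) [Fact q.Prime], ∃ BB : Finset (VIdx m w → ZMod q),
      BB.card * q ≤ C * q ^ Fintype.card (VIdx m w) ∧
      ∀ c ∉ BB, V1b (fun k : VIdx m w => ip q (c k)) (m + 1) ∧
        V2b (fun k : VIdx m w => ip q (c k)) (m + 1) ∧ RV hw c ≠ 0 := by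
  classical
  have hw1 : ∀ i, 1 ≤ w i := by
    intro i
    refine Fin.lastCases (by omega) (fun i => hw i) i
  obtain ⟨C, hC⟩ := vbad3 hw hw'
  obtain ⟨R, hR0, hR⟩ := exists_R (m := m) hw1
  obtain ⟨C', hC'⟩ := Pool.Agent.Helper26.GG.count_J R hR0
  refine ⟨C' + C, fun q hq => ?_⟩
  have hfin : ∀ S : Set (VIdx m w → ZMod q), S.Finite := fun S => Set.toFinite S
  set S : Set (VIdx m w → ZMod q) := {c | aeval c R = 0} ∪ {c | RV hw c = 0} with hS
  refine ⟨(hfin S).toFinset, ?_, ?_⟩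
  · rw [← Set.ncard_eq_toFinset_card S (hfin S)]
    calc S.ncard * q ≤ ({c : VIdx m w → ZMod q | aeval c R = 0}.ncard +
          {c : VIdx m w → ZMod q | RV hw c = 0}.ncard) * q :=
          Nat.mul_le_mul_right _ (Set.ncard_union_le _ _)
      _ ≤ _ := by
          rw [add_mul, add_mul]
          exact Nat.add_le_add (hC' q) (hC q)
  · intro c hc
    rw [Set.Finite.mem_toFinset, hS] at hc
    simp only [Set.mem_union, Set.mem_setOf_eq, not_or] at hc
    have h1 : aeval (fun k : VIdx m w => ip q (c k)) R ≠ 0 := by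
      have h2 : aeval (fun k : VIdx m w => ip q (c k)) R = ip q (aeval c R) := by
        have h3 : cm (fun k : VIdx m w => ip q (c k)) = (ip q).comp (cm c) := by
          have h4 := cm_hom ((ip q).comp (cm c))
          simp only [RingHom.comp_apply, cm_X] at h4
          exact h4
        exact RingHom.congr_fun h3 R
      rw [h2]
      exact fun h => hc.1 ((ip q).injective (by rw [h, map_zero]))
    obtain ⟨h2, h3⟩ := hR _ h1
    exact ⟨h2, h3, hc.2⟩

/-- A hypersurface over `ℂ` lies, as far as points over `K` are concerned, in a hypersurface over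
`K` of at most the same degree. -/
theorem exists_down' {K : Type*} [Field K] [Algebra ℚ K] [Algebra K ℂ]
    (F0 : MvPolynomial (Fin (m + 1)) ℂ) (hF0 : F0 ≠ 0) :
    ∃ G : MvPolynomial (Fin (m + 1)) K, G ≠ 0 ∧ G.totalDegree ≤ F0.totalDegree ∧
      ∀ {Ω : Type*} [Field Ω] [Algebra ℚ Ω] (e : K →+* Ω)
        (Φ : Fin (m + 1) → MvPolynomial (Fin (m + 1)) ℚ) (α : Fin (m + 1) → K) (n : ℕ),
        eval ((pm (toC Φ))^[n] (fun i => algebraMap K ℂ (α i))) F0 = 0 →
          eval ((pm (fun i => MvPolynomial.map (algebraMap ℚ Ω) (Φ i)))^[n] (fun i => e (α i)))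
            (map e G) = 0 := by
  classical
  obtain ⟨s0, hs0⟩ := ne_zero_iff.1 hF0
  have hlam : ∃ lam : ℂ →ₗ[K] K, lam (coeff s0 F0) ≠ 0 := by
    by_contra hl
    push Not at hl
    exact hs0 ((Module.forall_dual_apply_eq_zero_iff K _).1 hl)
  obtain ⟨lam, hlam⟩ := hlam
  refine ⟨cw lam F0, ?_, ?_, ?_⟩
  · intro h0
    apply hlam
    rw [← coeff_cw, h0, coeff_zero]
  · apply totalDegree_le_of_coeff
    intro s hs
    rw [coeff_cw, coeff_eq_zero_of_gt F0 _ le_rfl s hs, map_zero]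
  · intro Ω _ _ e Φ α n h0
    set β : Fin (m + 1) → K :=
      (pm (fun i => MvPolynomial.map (algebraMap ℚ K) (Φ i)))^[n] α with hβ
    have h1 : (pm (toC Φ))^[n] (fun i => algebraMap K ℂ (α i)) =
        fun i => algebraMap K ℂ (β i) :=
      (hom_pm_iterate (algebraMap K ℂ) Φ α n).symm
    have h2 : (pm (fun i => MvPolynomial.map (algebraMap ℚ Ω) (Φ i)))^[n]
        (fun i => e (α i)) = fun i => e (β i) :=
      (hom_pm_iterate e Φ α n).symm
    rw [h1] at h0
    have h3 : eval β (cw lam F0) = 0 := by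
      rw [eval_cw, h0, map_zero]
    rw [h2, eval_map]
    have h5 := MvPolynomial.eval₂_comp_left e (RingHom.id _) β (cw lam F0)
    rw [eval₂_id, RingHom.comp_id] at h5
    have h6 : eval₂ e (fun i => e (β i)) (cw lam F0) = e (eval β (cw lam F0)) := h5.symm
    rw [h6, h3, map_zero]

/-- **Uniform bound for the number of returns**, version over the algebraic closure of `ℚ_p`. -/
theorem aunif {p : ℕ} [hp : Fact p.Prime]
    (hw : ∀ i : Fin m, 1 ≤ w i.castSucc ∧ w i.castSucc < w (Fin.last m))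
    (hd : 2 ≤ w (Fin.last m)) {Φ : Fin (m + 1) → MvPolynomial (Fin (m + 1)) ℚ_[p]}
    (hΦ : VPre p m w Φ) {c : VIdx m w → ZMod p} (hc : VRed Φ c)
    (h1 : V1b (fun k : VIdx m w => ip p (c k)) (m + 1))
    (h2 : V2b (fun k : VIdx m w => ip p (c k)) (m + 1))
    (hdom : VDom w Φ) (D : ℕ) :
    ∃ C : ℕ, ∀ (E : IntermediateField ℚ_[p] (PadicAlgCl p)),
      (∀ x ∈ E, (p : ℝ) * ‖x‖ ^ w (Fin.last m) ≠ 1) →
      ∀ x : Fin (m + 1) → PadicAlgCl p, (∀ i, x i ∈ E) →
      ∀ F : MvPolynomial (Fin (m + 1)) (PadicAlgCl p), F ≠ 0 →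
        F.totalDegree ≤ D → {n | eval ((pm (up p Φ))^[n] x) F = 0}.encard ≤ C := by
  classical
  have hp1 : (1 : ℝ) < p := by exact_mod_cast hp.out.one_lt
  have hlt : ∀ i, i ≠ Fin.last m → w i < w (Fin.last m) := by
    intro i
    refine Fin.lastCases (fun h => absurd rfl h) (fun i _ => (hw i).2) i
  set N := (m + 1) + 2 + (∑ i, w i + 1) * (m + 1) with hN
  have hterm : Term (up p Φ) := by
    intro F hF
    have hmap : ΦQ (up p Φ) = fun i => map (((algebraMap (RB (PadicAlgCl p) (Fin (m + 1)))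
        (QK (PadicAlgCl p) m)).comp
        (C : PadicAlgCl p →+* RB (PadicAlgCl p) (Fin (m + 1)))).comp
          (algebraMap ℚ_[p] (PadicAlgCl p))) (Φ i) := by
      funext i
      rw [ΦQ, ΦR, up, MvPolynomial.map_map, MvPolynomial.map_map]
    haveI : CharZero (QK (PadicAlgCl p) m) :=
      charZero_of_injective_ringHom ((algebraMap (RB (PadicAlgCl p) (Fin (m + 1)))
        (QK (PadicAlgCl p) m)).comp
        (C : PadicAlgCl p →+* RB (PadicAlgCl p) (Fin (m + 1)))).injective
    refine Pool.Agent.Helper26.DV.term hw (by omega) ?_ hF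
    rw [hmap]
    exact vdom_map _ hdom
  obtain ⟨C, hC⟩ := unif_count (nav (PadicAlgCl p)) hp1 hterm D
  refine ⟨C + N, fun E hE x hx F hF hFD => ?_⟩
  have htrap := fun n (hn : N ≤ n) => trap_alg hw (by omega) hΦ hc E hE h1 h2 n hn x hx
  have horb := orb_of_GE hp1 hd hlt (epre_of_vpre hΦ) htrap
  have h3 := hC _ horb F hF hFD
  set S := {n | eval ((pm (up p Φ))^[n] x) F = 0} with hS
  set S' := {n | eval ((pm (up p Φ))^[N + n] x) F = 0} with hS'
  have hsub : S ⊆ (fun n => N + n) '' S' ∪ (Finset.range N : Set ℕ) := by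
    intro n hn
    by_cases h : n < N
    · right
      exact_mod_cast Finset.mem_range.2 h
    · left
      refine ⟨n - N, ?_, by dsimp only; omega⟩
      rw [hS', Set.mem_setOf_eq]
      have h4 : N + (n - N) = n := by omega
      rw [h4]
      exact hn
  calc S.encard ≤ ((fun n => N + n) '' S' ∪ (Finset.range N : Set ℕ)).encard :=
        Set.encard_le_encard hsub
    _ ≤ ((fun n => N + n) '' S').encard + (Finset.range N : Set ℕ).encard :=
        Set.encard_union_le _ _
    _ ≤ (C : ℕ∞) + N := by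
        refine add_le_add ((Set.encard_image_le _ _).trans h3) ?_
        rw [Set.encard_coe_eq_coe_finsetCard, Finset.card_range]
    _ = ((C + N : ℕ) : ℕ∞) := by push_cast; rfl

/-- **Main theorem.** -/
theorem ap_main (hw : ∀ i : Fin m, 1 ≤ w i.castSucc)
    (hw' : ∀ i : Fin m, w i.castSucc < w (Fin.last m)) (hd : 2 ≤ w (Fin.last m))
    (A : Finset ℂ) (ε : ℝ) (hε : 0 < ε) :
    ∃ K : ℕ, ∀ B : ℕ, K ≤ B → (vbox m w B).Finite ∧
      (1 - ε) * ((vbox m w B).ncard : ℝ) ≤
        (({Φ ∈ vbox m w B | ∀ D : ℕ, ∃ C : ℕ, ∀ α : Fin (m + 1) → ℂ,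
          ¬ w (Fin.last m) ∣ Module.finrank (Subfield.closure (A : Set ℂ))
            (IntermediateField.adjoin (Subfield.closure (A : Set ℂ)) (Set.range α)) →
            ∀ F : MvPolynomial (Fin (m + 1)) ℂ, F ≠ 0 → F.totalDegree ≤ D →
              {n | eval ((pm (toC Φ))^[n] α) F = 0}.encard ≤ C}).ncard : ℝ) := by
  obtain ⟨C, hC⟩ := exists_BB hw hw' hd
  choose BB hBB hgood using hC
  obtain ⟨P, K, hP, h⟩ := v_density w C (primesFor A) (not_summable_primesFor A)
    (prime_of_mem_primesFor A) (w (Fin.last m) + 1) ε hε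
  refine ⟨K, fun B hB => ?_⟩
  obtain ⟨hfin, hcard⟩ := h BB hBB B hB
  refine ⟨hfin, hcard.trans ?_⟩
  refine Nat.cast_le.2 (Set.ncard_le_ncard ?_ (hfin.subset fun Φ hΦ => hΦ.1))
  rintro Φ ⟨hΦ, q, hq, hF, c, hc, hpre, hred⟩
  refine ⟨hΦ, fun D => ?_⟩
  obtain ⟨h1, h2, h3⟩ := hgood q c hc
  obtain ⟨_, ⟨e'⟩⟩ := exists_field_emb A q (hP q hq).1
  have hpd : w (Fin.last m) < q := (hP q hq).2.2
  have hdom : VDom w (toQp q Φ) := vdom_of hw hw' (by omega) hpd hpre hred h3
  obtain ⟨C', hC'⟩ := aunif (fun i => ⟨hw i, hw' i⟩) hd hpre hred h1 h2 hdom D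
  refine ⟨C', fun α hα F hF0 hFD => ?_⟩
  set L := Subfield.closure (A : Set ℂ) with hL
  set KK := IntermediateField.adjoin L (Set.range α) with hKK
  haveI : FiniteDimensional L KK := by
    refine Module.finite_of_finrank_pos (Nat.pos_of_ne_zero fun h0 => hα ?_)
    rw [h0]
    exact dvd_zero _
  obtain ⟨τ, E, -, hτE, hE⟩ := exists_emb q e' (w (Fin.last m)) hα
  obtain ⟨G, hG0, hGD, hG⟩ := exists_down' (K := KK) F hF0
  have hG1 : MvPolynomial.map τ G ≠ 0 := fun h0 =>
    hG0 (map_injective τ τ.injective (by rw [h0, map_zero]))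
  have hG2 : (MvPolynomial.map τ G).totalDegree ≤ D :=
    (Finset.sup_mono (support_map_subset _ _)).trans (hGD.trans hFD)
  have hαK : ∀ i, α i ∈ KK := fun i =>
    IntermediateField.subset_adjoin L (Set.range α) ⟨i, rfl⟩
  refine le_trans (Set.encard_le_encard ?_) (hC' E hE (fun i => τ ⟨α i, hαK i⟩)
    (fun i => hτE _) _ hG1 hG2)
  intro n hn
  have h4 := hG τ Φ (fun i => ⟨α i, hαK i⟩) n hn
  have h5 : (fun i => MvPolynomial.map (algebraMap ℚ (PadicAlgCl q)) (Φ i)) = up q (toQp q Φ) := by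
    funext i
    rw [up, toQp, MvPolynomial.map_map]
    congr 1
  rw [h5] at h4
  exact h4

end Pool.Agent.Helper87.AP
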